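import Pool.Agent.H341.MA.Main

/-!
# Torsion-free groups acting geometrically on mediangle graphs are of type `F`

The definitions (`Mediangle`, `GeometricAction`, `TypeF`) are in
`Pool/Agent/H341/MA/Defs.lean`.
-/

set_option autoImplicit false

namespace Pool.Agent.Results.MP_d893c1_al.TorsionFreeTypeF

open Pool.Agent.H341.MA

universe u

/-- Every torsion-free group which acts geometrically on a mediangle graph is of type `F`. -/
theorem result (V : Type u) (X : SimpleGraph V) (G : Type u) [Group G] [MulAction G V]
    (hX : Mediangle X) (hG : GeometricAction X G) (htf : ∀ g : G, g ≠ 1 → ¬ IsOfFinOrder g) :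
    TypeF G :=
  (mediangle_main V X G hX hG).2 htf

end Pool.Agent.Results.MP_d893c1_al.TorsionFreeTypeF
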